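import Pool.Agent.Magi.Square

/-! `MP_c96495_lc`: if `ℵ_ω` is a Magidor cardinal, then for some `k` with `2^{ℵ_0} ≤ ℵ_k` the
square principle for `ℵ_n` with `ℵ_k` guesses fails for infinitely many `n`, even in the weak form
where the guesses need not be closed and have to cohere at points of cofinality `ω` only. -/

open Cardinal Ordinal Set Magi

namespace Pool.Agent.Results.MP_c96495_lc.SquareFailure

theorem result (h : IsMagidor (ℵ_ ω)) :
    ∃ k : ℕ, 1 ≤ k ∧ (𝔠 : Cardinal.{0}) ≤ ℵ_ (k : Ordinal.{0}) ∧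
      ∀ N : ℕ, ∃ n, N ≤ n ∧ ¬ WeakSq n k :=
  square_failure h

end Pool.Agent.Results.MP_c96495_lc.SquareFailure
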