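import Pool.Agent.Magi.Comp

/-! `MP_c96495_lc`: `ℵ_ω` is a Magidor cardinal iff one fixed function `g` describes the
cardinalities of closed sets for all algebras with continuum many infinitary operations. -/

open Cardinal Ordinal Set Magi

namespace Pool.Agent.Results.MP_c96495_lc.TypeEquivalence

theorem result :
    (IsMagidor (ℵ_ ω) ↔ ∃ (k : ℕ) (g : ℕ → ℕ), Shape k g ∧ (∀ n, k < n → g n < n) ∧
      IsType k g) ∧
    (IsMagidor (ℵ_ ω) ↔ ∃ k : ℕ, 1 ≤ k ∧ (𝔠 : Cardinal.{0}) ≤ ℵ_ (k : Ordinal.{0}) ∧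
      ∀ d : ℕ, ∃ g : ℕ → ℕ, Shape k g ∧ IsType k g ∧ ∀ n, k + d ≤ n → g n + d ≤ n) :=
  characterization

end Pool.Agent.Results.MP_c96495_lc.TypeEquivalence
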